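import Mathlib

namespace Pool.Agent.Results.MP_af8c33_pr.NotOrdered
open Matrix

/-- data of a Markov-modulated Poisson process: irreducible generator `Q`, rates `lam`,
stationary row vector `π` -/
structure IsMMPP {p : ℕ} (Q : Matrix (Fin p) (Fin p) ℝ) (lam π : Fin p → ℝ) : Prop where
  offdiag : ∀ i j, i ≠ j → 0 ≤ Q i j
  rows : ∀ i, ∑ j, Q i j = 0
  irred : ∀ i j, Relation.ReflTransGen (fun a b => a ≠ b ∧ 0 < Q a b) i j
  lam_nonneg : ∀ i, 0 ≤ lam i
  lam_ne : ∃ i, lam i ≠ 0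
  stat : π ᵥ* Q = 0
  total : ∑ i, π i = 1

/-- `α = π D / (π D 1)` -/
noncomputable def alpha {p : ℕ} (lam π : Fin p → ℝ) : Fin p → ℝ :=
  fun i => π i * lam i / ∑ j, π j * lam j

/-- `η e^{C t} 1` with `C = Q - D` -/
noncomputable def surv {p : ℕ} (Q : Matrix (Fin p) (Fin p) ℝ) (lam η : Fin p → ℝ) (t : ℝ) : ℝ :=
  η ⬝ᵥ (NormedSpace.exp (t • (Q - diagonal lam)) *ᵥ 1)

def Q0 : Matrix (Fin 16) (Fin 16) ℝ :=
  Matrix.of fun i j => (if j = i + 1 then 1 else 0) - (if j = i then 1 else 0)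

noncomputable def l0 : Fin 16 → ℝ := fun i => if i.val < 8 then 1 / 4 else 0

def stepL (l : List ℤ) : List ℤ :=
  (List.range 16).map fun j =>
    12 * l.getD ((j + 1) % 16) 0 - (if j < 8 then 15 else 12) * l.getD j 0

def vec : ℕ → List ℤ
  | 0 => List.replicate 16 1
  | n + 1 => stepL (vec n)

def sg (l : List ℤ) : ℤ := ((List.range 16).map fun j => (if j < 8 then 1 else -1) * l.getD j 0).sum

/-- partial sum `n!·∑_{k < n} sg (vec k) / k!` together with `vec n` -/
def acc : ℕ → ℤ × List ℤ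
  | 0 => (0, List.replicate 16 1)
  | n + 1 => let q := acc n; ((n + 1 : ℕ) * (q.1 + sg q.2), stepL q.2)

lemma acc_eq (n : ℕ) : (acc n).2 = vec n ∧
    ((acc n).1 : ℝ) = (n.factorial : ℝ) * ∑ k ∈ Finset.range n, (sg (vec k) : ℝ) / k.factorial := by
  induction n with
  | zero => simp [acc, vec]
  | succ n ih =>
    refine ⟨by simp [acc, vec, ih.1], ?_⟩
    simp only [acc, ih.1]
    push_cast
    rw [ih.2, Finset.sum_range_succ, Nat.factorial_succ]
    have : (n.factorial : ℝ) ≠ 0 := by positivity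
    push_cast
    field_simp

lemma acc_big : 32 * 27 ^ 80 < (acc 80).1 := by decide +kernel

lemma apply_M (u : Fin 16 → ℝ) (i : Fin 16) :
    (((12 : ℝ) • (Q0 - diagonal l0)) *ᵥ u) i =
      12 * u (i + 1) - (if i.val < 8 then 15 else 12) * u i := by
  rw [smul_mulVec, sub_mulVec, Pi.smul_apply, Pi.sub_apply, mulVec_diagonal]
  simp only [Q0, l0, mulVec, dotProduct, of_apply, sub_mul, Finset.sum_sub_distrib, ite_mul,
    one_mul, zero_mul, Finset.sum_ite_eq', Finset.mem_univ, if_true, smul_eq_mul]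
  split_ifs <;> ring

lemma pow_eq (n : ℕ) (i : Fin 16) :
    ((((12 : ℝ) • (Q0 - diagonal l0)) ^ n) *ᵥ 1) i = ((vec n).getD i 0 : ℤ) := by
  induction n generalizing i with
  | zero => fin_cases i <;> simp [vec]
  | succ n ih =>
    rw [pow_succ', ← mulVec_mulVec, apply_M, ih, ih]
    have h1 : ((i + 1 : Fin 16) : ℕ) = (i.val + 1) % 16 := by simp [Fin.val_add]
    have h2 : (vec (n + 1)).getD i 0 = 12 * (vec n).getD ((i.val + 1) % 16) 0 -
        (if i.val < 8 then 15 else 12) * (vec n).getD i 0 := by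
      simp [vec, stepL, List.getD_eq_getElem?_getD]
    rw [h1, h2]
    push_cast
    rfl

lemma pow_bd (n : ℕ) (i : Fin 16) :
    |((((12 : ℝ) • (Q0 - diagonal l0)) ^ n) *ᵥ 1) i| ≤ 27 ^ n := by
  induction n generalizing i with
  | zero => simp
  | succ n ih =>
    rw [pow_succ', ← mulVec_mulVec, apply_M, pow_succ]
    have h1 := abs_le.1 (ih i)
    have h2 := abs_le.1 (ih (i + 1))
    have h3 : (0 : ℝ) < 27 ^ n := by positivity
    rw [abs_le]
    split_ifs <;> constructor <;> linarith [h1.1, h1.2, h2.1, h2.2]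

def w : Fin 16 → ℝ := fun j => if j.val < 8 then 1 else -1

lemma dot_eq (n : ℕ) :
    w ⬝ᵥ ((((12 : ℝ) • (Q0 - diagonal l0)) ^ n) *ᵥ 1) = sg (vec n) := by
  simp only [dotProduct, pow_eq, sg]
  simp [Fin.sum_univ_succ, w, List.range_succ]

lemma dot_bd (n : ℕ) : |(sg (vec n) : ℝ)| ≤ 16 * 27 ^ n := by
  rw [← dot_eq]
  refine (Finset.abs_sum_le_sum_abs _ _).trans ?_
  refine (Finset.sum_le_card_nsmul _ _ (27 ^ n) fun i _ => ?_).trans (by simp)
  rw [abs_mul]
  have : |w i| = 1 := by simp only [w]; split_ifs <;> simp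
  rw [this, one_mul]
  exact pow_bd n i

set_option backward.isDefEq.respectTransparency false in
lemma hasSum_exp (A : Matrix (Fin 16) (Fin 16) ℝ) :
    HasSum (fun n : ℕ => ((n.factorial : ℝ)⁻¹) • A ^ n) (NormedSpace.exp A) :=
  open scoped Norms.Operator in NormedSpace.exp_series_hasSum_exp' (𝕂 := ℝ) A

lemma tail (n : ℕ) : (27 : ℝ) ^ (n + 80) / (n + 80).factorial ≤
    27 ^ 80 / (Nat.factorial 80) * (1 / 2) ^ n := by
  induction n with
  | zero => simp
  | succ n ih =>
    have e : (27 : ℝ) ^ (n + 1 + 80) / (n + 1 + 80).factorial =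
        27 ^ (n + 80) / (n + 80).factorial * (27 / (n + 81)) := by
      rw [show n + 1 + 80 = (n + 80) + 1 by ring, Nat.factorial_succ, pow_succ]
      push_cast
      field_simp
      ring
    rw [e, pow_succ (1 / 2 : ℝ), ← mul_assoc]
    refine mul_le_mul ih ?_ (by positivity) (by positivity)
    rw [div_le_div_iff₀ (by positivity) (by norm_num)]
    have : (0 : ℝ) ≤ n := n.cast_nonneg
    linarith

lemma main : 0 < w ⬝ᵥ (NormedSpace.exp ((12 : ℝ) • (Q0 - diagonal l0)) *ᵥ 1) := by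
  let L : Matrix (Fin 16) (Fin 16) ℝ →+ ℝ :=
    { toFun := fun M => w ⬝ᵥ (M *ᵥ 1)
      map_zero' := by simp
      map_add' := fun a b => by simp [add_mulVec] }
  have hL : Continuous L := by
    change Continuous fun M : Matrix (Fin 16) (Fin 16) ℝ => w ⬝ᵥ (M *ᵥ 1)
    fun_prop
  have h := (hasSum_exp ((12 : ℝ) • (Q0 - diagonal l0))).map L hL
  have h' : HasSum (fun n : ℕ => (sg (vec n) : ℝ) / n.factorial)
      (w ⬝ᵥ (NormedSpace.exp ((12 : ℝ) • (Q0 - diagonal l0)) *ᵥ 1)) := by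
    convert h using 1
    · funext n
      change _ = w ⬝ᵥ ((((n.factorial : ℝ)⁻¹) • _) *ᵥ 1)
      rw [smul_mulVec, dotProduct_smul, dot_eq, smul_eq_mul, div_eq_inv_mul]
    · rfl
  rw [← h'.tsum_eq, ← h'.summable.sum_add_tsum_nat_add 80]
  have hF : (0 : ℝ) < (Nat.factorial 80 : ℝ) := by positivity
  have ht : ‖∑' n : ℕ, (sg (vec (n + 80)) : ℝ) / (n + 80).factorial‖ ≤
      16 * (27 ^ 80 / (Nat.factorial 80)) * 2 := by
    refine tsum_of_norm_bounded (hasSum_geometric_two.mul_left _) fun n => ?_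
    rw [Real.norm_eq_abs, abs_div, Nat.abs_cast, mul_assoc]
    refine le_trans ?_ (mul_le_mul_of_nonneg_left (tail n) (by norm_num))
    rw [← mul_div_assoc]
    exact div_le_div_of_nonneg_right (dot_bd _) (by positivity)
  have h1 := (acc_eq 80).2
  have h2 : (32 * 27 ^ 80 : ℝ) < ((acc 80).1 : ℝ) := by exact_mod_cast acc_big
  have h3 : 32 * (27 ^ 80 / (Nat.factorial 80 : ℝ)) <
      ∑ k ∈ Finset.range 80, (sg (vec k) : ℝ) / k.factorial := by
    rw [← mul_div_assoc, div_lt_iff₀ hF, mul_comm _ (Nat.factorial 80 : ℝ), ← h1]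
    exact h2
  have h4 := (abs_le.1 (Real.norm_eq_abs _ ▸ ht)).1
  generalize (27 : ℝ) ^ 80 / (Nat.factorial 80 : ℝ) = K at h3 h4
  linarith

lemma mmpp : IsMMPP Q0 l0 (fun _ => 1 / 16) where
  offdiag i j hij := by
    simp only [Q0, of_apply, if_neg hij.symm]
    split_ifs <;> norm_num
  rows i := by simp [Q0]
  irred i j := by
    have hs : ∀ a : Fin 16, a ≠ a + 1 ∧ 0 < Q0 a (a + 1) := by
      intro a
      have : a ≠ a + 1 := by revert a; decide
      exact ⟨this, by simp [Q0]⟩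
    have hk : ∀ k : ℕ, Relation.ReflTransGen (fun a b => a ≠ b ∧ 0 < Q0 a b) i
        (i + Fin.ofNat 16 k) := by
      intro k
      induction k with
      | zero => simpa using Relation.ReflTransGen.refl
      | succ k ih =>
        have : i + Fin.ofNat 16 (k + 1) = i + Fin.ofNat 16 k + 1 := by
          rw [add_assoc]
          congr 1
          ext
          simp [Fin.val_add]
        rw [this]
        exact ih.tail (hs _)
    have := hk (j - i).val
    simpa using this
  lam_nonneg i := by simp only [l0]; split_ifs <;> norm_num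
  lam_ne := ⟨0, by simp [l0]⟩
  stat := by
    funext j
    have : ∀ i : Fin 16, (j = i + 1) ↔ (i = j - 1) := by
      intro i
      rw [eq_sub_iff_add_eq, eq_comm]
    simp [vecMul, dotProduct, Q0, ← Finset.mul_sum, this]
  total := by simp

theorem result : ¬ ∀ (p : ℕ) (Q : Matrix (Fin p) (Fin p) ℝ) (lam π : Fin p → ℝ),
    IsMMPP Q lam π → ∀ t : ℝ, 0 ≤ t → surv Q lam (alpha lam π) t ≤ surv Q lam π t := by
  intro h
  have h1 := h 16 Q0 l0 _ mmpp 12 (by norm_num)
  have h2 := main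
  have hs : ∑ j, (1 / 16 : ℝ) * l0 j = 1 / 8 := by
    simp [Fin.sum_univ_succ, l0]
    norm_num
  have h3 : alpha l0 (fun _ => 1 / 16) = (fun _ => 1 / 16) + (1 / 16 : ℝ) • w := by
    funext i
    simp only [alpha, hs, Pi.add_apply, Pi.smul_apply, smul_eq_mul]
    simp only [l0, w]
    split_ifs <;> norm_num
  rw [surv, surv, h3, add_dotProduct, smul_dotProduct, smul_eq_mul] at h1
  linarith

end Pool.Agent.Results.MP_af8c33_pr.NotOrdered
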