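import Mathlib

namespace Pool.Agent.Results.MP_af8c33_pr.Variability
open Matrix

/-- data of a Markov-modulated Poisson process: irreducible generator `Q`, rates `lam`,
stationary row vector `π` -/
structure IsMMPP {p : ℕ} (Q : Matrix (Fin p) (Fin p) ℝ) (lam π : Fin p → ℝ) : Prop where
  offdiag : ∀ i j, i ≠ j → 0 ≤ Q i j
  rows : ∀ i, ∑ j, Q i j = 0
  irred : ∀ i j, Relation.ReflTransGen (fun a b => a ≠ b ∧ 0 < Q a b) i j
  lam_nonneg : ∀ i, 0 ≤ lam i
  lam_ne : ∃ i, lam i ≠ 0
  stat : π ᵥ* Q = 0
  total : ∑ i, π i = 1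

variable {p : ℕ} {Q : Matrix (Fin p) (Fin p) ℝ} {lam π : Fin p → ℝ}

lemma closed_all (h : IsMMPP Q lam π) (P : Fin p → Prop)
    (hP : ∀ a b, P a → a ≠ b → 0 < Q a b → P b) {i : Fin p} (hi : P i) (j : Fin p) : P j := by
  induction h.irred i j with
  | refl => exact hi
  | tail _ hbc ih => exact hP _ _ ih hbc.1 hbc.2

lemma pi_nonneg (h : IsMMPP Q lam π) (i : Fin p) : 0 ≤ π i := by
  by_contra hi
  push Not at hi
  set g : Fin p → ℝ := fun j => if π j < 0 then 1 else 0 with hg
  have hterm : ∀ a b, 0 ≤ π a * (Q a b * (g b - g a)) := by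
    intro a b
    by_cases hab : a = b
    · simp [hab]
    · have := h.offdiag a b hab
      simp only [hg]
      split_ifs with h1 h2 h2
      · simp
      · push Not at h2
        simp only [sub_zero, mul_one]
        positivity
      · nlinarith
      · simp
  have hsum : ∑ a, ∑ b, π a * (Q a b * (g b - g a)) = 0 := by
    have h1 : ∀ a, ∑ b, π a * (Q a b * (g b - g a)) = ∑ b, π a * Q a b * g b := by
      intro a
      have : ∑ b, π a * (Q a b * (g b - g a)) =
          ∑ b, π a * Q a b * g b - π a * g a * ∑ b, Q a b := by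
        rw [Finset.mul_sum, ← Finset.sum_sub_distrib]
        exact Finset.sum_congr rfl fun b _ => by ring
      rw [this, h.rows a, mul_zero, sub_zero]
    simp_rw [h1]
    rw [Finset.sum_comm]
    refine Finset.sum_eq_zero fun b _ => ?_
    have := congrFun h.stat b
    simp only [vecMul, dotProduct, Pi.zero_apply] at this
    rw [← Finset.sum_mul, this, zero_mul]
  have hall := closed_all h (fun a => π a < 0) (by
    intro a b ha hab hq
    by_contra hb
    have h1 := (Finset.sum_eq_zero_iff_of_nonneg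
      (fun a _ => Finset.sum_nonneg fun b _ => hterm a b)).1 hsum a (Finset.mem_univ _)
    have h2 := (Finset.sum_eq_zero_iff_of_nonneg (fun b _ => hterm a b)).1 h1 b
      (Finset.mem_univ _)
    simp only [hg, if_pos ha, if_neg hb] at h2
    nlinarith) hi
  have : ∑ j, π j ≤ 0 := Finset.sum_nonpos fun j _ => (hall j).le
  linarith [h.total]

lemma apply_C (h : IsMMPP Q lam π) (u : Fin p → ℝ) (i : Fin p) :
    ((Q - diagonal lam) *ᵥ u) i = ∑ j, Q i j * (u j - u i) - lam i * u i := by
  rw [sub_mulVec, Pi.sub_apply, mulVec_diagonal]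
  congr 1
  simp only [mul_sub, Finset.sum_sub_distrib, ← Finset.sum_mul, h.rows i, zero_mul, sub_zero]
  rfl

lemma min_principle (h : IsMMPP Q lam π) (u : Fin p → ℝ)
    (hu : ∀ i, ((Q - diagonal lam) *ᵥ u) i ≤ 0) (i : Fin p) : 0 ≤ u i := by
  obtain ⟨k, -, hk⟩ := Finset.exists_min_image Finset.univ u ⟨i, Finset.mem_univ _⟩
  by_contra hi
  push Not at hi
  have hm : u k < 0 := (hk i (Finset.mem_univ _)).trans_lt hi
  have key : ∀ a, u a = u k → lam a = 0 ∧ ∀ b, Q a b * (u b - u a) = 0 := by
    intro a ha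
    have hterm : ∀ b, 0 ≤ Q a b * (u b - u a) := by
      intro b
      by_cases hab : a = b
      · simp [hab]
      · exact mul_nonneg (h.offdiag a b hab) (by rw [ha]; linarith [hk b (Finset.mem_univ _)])
    have h1 := hu a
    rw [apply_C h] at h1
    have h2 : 0 ≤ ∑ b, Q a b * (u b - u a) := Finset.sum_nonneg fun b _ => hterm b
    have h3 := h.lam_nonneg a
    have h4 : lam a * u a ≤ 0 := by rw [ha]; nlinarith
    refine ⟨?_, fun b => (Finset.sum_eq_zero_iff_of_nonneg (fun b _ => hterm b)).1
      (by linarith) b (Finset.mem_univ _)⟩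
    have : lam a * u a = 0 := by linarith
    rcases mul_eq_zero.1 this with h5 | h5
    · exact h5
    · rw [ha] at h5; linarith
  have hall := closed_all h (fun a => u a = u k) (by
    intro a b ha _ hq
    have := (key a ha).2 b
    rcases mul_eq_zero.1 this with h5 | h5
    · linarith
    · linarith) (i := k) rfl
  obtain ⟨j, hj⟩ := h.lam_ne
  exact hj (key j (hall j)).1

lemma det_unit (h : IsMMPP Q lam π) : IsUnit (Q - diagonal lam).det := by
  rw [isUnit_iff_ne_zero]
  intro h0
  obtain ⟨v, hv, hz⟩ := exists_mulVec_eq_zero_iff.2 h0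
  apply hv
  funext i
  have h1 := min_principle h v (fun i => by rw [hz]; rfl) i
  have h2 := min_principle h (-v) (fun i => by rw [mulVec_neg, hz]; simp) i
  simp only [Pi.neg_apply] at h2
  simp only [Pi.zero_apply]
  linarith

theorem result (p : ℕ) (Q : Matrix (Fin p) (Fin p) ℝ) (lam π : Fin p → ℝ) (h : IsMMPP Q lam π) :
    1 ≤ (π ⬝ᵥ ((Q - diagonal lam) *ᵥ 1)) * (π ⬝ᵥ ((Q - diagonal lam)⁻¹ *ᵥ 1)) := by
  set u : Fin p → ℝ := -((Q - diagonal lam)⁻¹ *ᵥ 1) with hu
  have hCu : ∀ i, ((Q - diagonal lam) *ᵥ u) i = -1 := by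
    intro i
    rw [hu, mulVec_neg, mulVec_mulVec, mul_nonsing_inv _ (det_unit h), one_mulVec]
    rfl
  have hu0 := min_principle h u (fun i => by rw [hCu]; norm_num)
  have hpos : ∀ i, 0 < u i := by
    intro i
    refine lt_of_le_of_ne (hu0 i) fun hi => ?_
    have h1 := hCu i
    rw [apply_C h, ← hi] at h1
    have : 0 ≤ ∑ j, Q i j * (u j - 0) := Finset.sum_nonneg fun j _ => by
      by_cases hij : i = j
      · rw [← hij, ← hi]; simp
      · exact mul_nonneg (h.offdiag i j hij) (by linarith [hu0 j])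
    linarith
  have hπ := pi_nonneg h
  have hlam : ∀ i, 1 / u i + ∑ j, Q i j * Real.log (u j) ≤ lam i := by
    intro i
    have h1 := hCu i
    rw [apply_C h] at h1
    have h2 : ∑ j, Q i j * Real.log (u j) =
        ∑ j, Q i j * (Real.log (u j) - Real.log (u i)) := by
      simp only [mul_sub, Finset.sum_sub_distrib, ← Finset.sum_mul, h.rows i, zero_mul, sub_zero]
    have h3 : ∑ j, Q i j * (Real.log (u j) - Real.log (u i)) ≤
        ∑ j, Q i j * (u j - u i) / u i := Finset.sum_le_sum fun j _ => by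
      by_cases hij : i = j
      · simp [hij]
      · rw [mul_div_assoc]
        refine mul_le_mul_of_nonneg_left ?_ (h.offdiag i j hij)
        rw [← Real.log_div (hpos j).ne' (hpos i).ne', sub_div, div_self (hpos i).ne']
        exact Real.log_le_sub_one_of_pos (div_pos (hpos j) (hpos i))
    rw [← Finset.sum_div] at h3
    have h4 : (∑ j, Q i j * (u j - u i)) / u i = lam i - 1 / u i := by
      have := (hpos i).ne'
      field_simp
      linarith
    linarith
  set U := ∑ i, π i * u i with hU
  have hUpos : 0 < U := by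
    by_contra hn
    have h0 : U = 0 := le_antisymm (not_lt.1 hn)
      (Finset.sum_nonneg fun i _ => mul_nonneg (hπ i) (hu0 i))
    have h1 := (Finset.sum_eq_zero_iff_of_nonneg
      (fun i _ => mul_nonneg (hπ i) (hu0 i))).1 h0
    have h2 : ∑ i, π i = 0 := Finset.sum_eq_zero fun i hi =>
      (mul_eq_zero.1 (h1 i hi)).resolve_right (hpos i).ne'
    linarith [h.total]
  have hA : ∑ i, π i * ∑ j, Q i j * Real.log (u j) = 0 := by
    simp_rw [Finset.mul_sum]
    rw [Finset.sum_comm]
    refine Finset.sum_eq_zero fun b _ => ?_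
    have := congrFun h.stat b
    simp only [vecMul, dotProduct, Pi.zero_apply] at this
    simp_rw [← mul_assoc]
    rw [← Finset.sum_mul, this, zero_mul]
  have hB : 1 / U ≤ ∑ i, π i * lam i := by
    calc 1 / U = ∑ i, π i * (2 / U - u i / U ^ 2 + ∑ j, Q i j * Real.log (u j)) := by
          simp_rw [mul_add, mul_sub, ← mul_div_assoc]
          rw [Finset.sum_add_distrib, Finset.sum_sub_distrib, hA, ← Finset.sum_div,
            ← Finset.sum_div, ← Finset.sum_mul, h.total, ← hU]
          field_simp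
          ring
      _ ≤ _ := Finset.sum_le_sum fun i _ => mul_le_mul_of_nonneg_left (by
          have h1 : 2 / U - u i / U ^ 2 ≤ 1 / u i := by
            have := hpos i
            rw [div_sub_div _ _ hUpos.ne' (by positivity), div_le_div_iff₀ (by positivity) this]
            nlinarith [mul_nonneg hUpos.le (sq_nonneg (U - u i))]
          linarith [hlam i]) (hπ i)
  have e1 : π ⬝ᵥ ((Q - diagonal lam) *ᵥ 1) = -∑ i, π i * lam i := by
    simp only [dotProduct, apply_C h]
    simp
  have e2 : π ⬝ᵥ ((Q - diagonal lam)⁻¹ *ᵥ 1) = -U := by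
    simp [hU, hu, dotProduct]
  rw [e1, e2, neg_mul_neg]
  rw [div_le_iff₀ hUpos] at hB
  exact hB

end Pool.Agent.Results.MP_af8c33_pr.Variability
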